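import Pool.Agent.X276.BraceEx

/-!
# A nilpotent group of class two which is not the multiplicative group of a left brace

Let `H` be the free nilpotent group of class two and rank three over `ℚ`: the set `ℚ³ × ℚ³` with
`(u, s) (v, t) = (u + v, s + t + (u × v) / 2)`. For the six vectors `w = e₁, e₂, e₃, e₂ + e₃,
e₁ + e₃, e₁ + e₂` take the primes `p = 3, 5, 7, 11, 13, 17`, and let `G` be the subgroup of the
`(u, s)` such that `u × w` and `s · w` are `p`-integral for these six pairs, and `u` and
`s + (u₂ u₃, u₃ u₁, u₁ u₂) / 2` are `2`-integral. The line of `w` consists of infinitely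
`p`-divisible elements modulo the centre.

Suppose that `G` is the multiplicative group of a left brace `M`. Then `M` is a `G`-module with a
bijective `1`-cocycle `π : G → M`.

* If `z` commutes with the elements `π⁻¹ (b (z - 1) π z)`, `b ∈ ℤ[X]`, these elements form a
  commutative monoid isomorphic to `1 + X ℤ[X]` modulo an ideal `J`; as `G` has finite rank and
  `ℤ[X]` is a Jacobson ring, `X ^ k ∈ J` for some `k` (there are only finitely many maximal ideals
  which contain `J` and not `X`). Hence `M` is torsion-free and, by the same argument modulo the
  centre, all elements of `G` are unipotent on `M`.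
* For every prime `p` and infinitely `p`-divisible `g`, `π g` and `(g - 1) M` are infinitely
  `p`-divisible. Conversely, the elements of `M` which are infinitely divisible by `p` and by `q`,
  for two different primes above, are fixed by `G` and correspond to the elements of `G` with the
  same property: otherwise one gets a nonzero `G`-fixed vector in a quotient, and an extension of
  divisible groups.
* Hence the centre acts trivially, and `(g - 1) π h` is for `g, h` over `w, w'` a rational multiple
  of the central element `w × w'`. By bilinearity the factors all agree, and the commutator shows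
  that they are `1/2`. But the central element `(e₁ × e₂) / 2` is not in `G`.
-/

set_option autoImplicit false

namespace Pool.Agent.Results.MP_790f3b_al.ClassTwoNotBrace

open Pool.Agent.X276.Brace

universe u

/-- **Not every nilpotent group of class two is the multiplicative group of a left brace.** There is
a nonabelian group `G` whose commutator subgroup is contained in its centre (and which is moreover
countable and torsion-free) such that for every left brace `A`, that is a set with an abelian group
structure `+` and a group structure `*` with `a * (b + c) = a * b - a + a * c`, the group `(A, *)`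
is not isomorphic to `G`. -/
theorem result : ∃ (G : Type) (_ : Group G),
    (∃ x y : G, x * y ≠ y * x) ∧ commutator G ≤ Subgroup.center G ∧
    Countable G ∧ (∀ (g : G) (n : ℕ), n ≠ 0 → g ^ n = 1 → g = 1) ∧
    ∀ (A : Type u) [AddCommGroup A] [Group A],
      (∀ a b c : A, a * (b + c) = a * b - a + a * c) → IsEmpty (A ≃* G) := by
  refine ⟨PP, inferInstance, ⟨X1, X2, ?_⟩, ?_, ?_, ?_, ?_⟩
  · intro h
    have h1 : (⟨1, 0, 0, 0, 0, 0⟩ : H6) * ⟨0, 1, 0, 0, 0, 0⟩ =
        (⟨0, 1, 0, 0, 0, 0⟩ : H6) * ⟨1, 0, 0, 0, 0, 0⟩ := congrArg Subtype.val h
    have h2 := congrArg H6.z h1
    simp at h2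
    norm_num at h2
  · rw [commutator_def, Subgroup.commutator_le]
    intro g _ h _
    show g * h * g⁻¹ * h⁻¹ ∈ Subgroup.center PP
    rw [Subgroup.mem_center_iff]
    intro k
    have h1 : H6.uu (PP.subtype (g * h * g⁻¹ * h⁻¹)) = 0 := by
      simp only [map_mul, map_inv]
      exact H6.uu_comm _ _
    exact (cen (ι := PP.subtype) Subtype.coe_injective h1 k).symm
  · have : Countable H6 :=
      Function.Injective.countable (f := H6.vec) (fun _ _ h => H6.vec_inj h)
    infer_instance
  · intro g n hn e
    apply Subtype.ext
    apply H6.torsionfree hn
    exact congrArg Subtype.val e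
  · intro A _ _ hb
    exact ⟨fun e => no_brace hb e⟩

end Pool.Agent.Results.MP_790f3b_al.ClassTwoNotBrace
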